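import Pool.Agent.H648Z.LE.Main

set_option autoImplicit false

open MeasureTheory Filter Topology
open scoped ENNReal
open Pool.Agent.H648Z.LE

namespace Pool.Agent.Results.MP_f65c66_pr.DenseLines

/-- Every almost surely infinite unimodular tree of maximal degree `d ≥ 2` contains an invariant
line ensemble of density at least `f (E deg(o) / d)`, where `f x = 3 x - 2`. -/
theorem result : ∃ f : ℝ → ℝ, (∀ x, f x = 3 * x - 2) ∧ Tendsto f (𝓝 1) (𝓝 1) ∧
    ∀ d : ℕ, 2 ≤ d → ∀ μ : Measure (SimpleGraph ℕ × ℕ), IsProbabilityMeasure μ →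
      (∀ᵐ x ∂μ, x.1.IsTree ∧ ∀ v, (x.1.neighborSet v).Finite) →
      Unimodular μ →
      essSup (fun x => ((x.1.neighborSet x.2).encard : ℝ≥0∞)) μ = (d : ℝ≥0∞) →
      ∃ ν : Measure ((SimpleGraph ℕ × ℕ) × SimpleGraph ℕ), IsProbabilityMeasure ν ∧
        ν.map Prod.fst = μ ∧ (∀ᵐ y ∂ν, IsLineEnsemble y.1.1 y.2) ∧ UnimodularMarked ν ∧
        f ((∫ x, ((x.1.neighborSet x.2).ncard : ℝ) ∂μ) / d) ≤
          ν.real {y | ∃ v, y.2.Adj y.1.2 v} := by
  refine ⟨fun x => 3 * x - 2, fun _ => rfl, ?_, ?_⟩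
  · have h : Continuous fun x : ℝ => 3 * x - 2 := by fun_prop
    have h1 := h.tendsto 1
    norm_num at h1
    exact h1
  · intro d hd μ hμ hgood hu hs
    refine main hd μ hgood hu ?_
    filter_upwards [ENNReal.ae_le_essSup (μ := μ)
      (fun x => ((x.1.neighborSet x.2).encard : ℝ≥0∞))] with x hx
    rw [hs] at hx
    exact ENat.toENNReal_le.1 (by simpa using hx)

end Pool.Agent.Results.MP_f65c66_pr.DenseLines
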